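import Pool.Agent.Helper60.T3.Defs
import Pool.Agent.Helper29.BL.PS

/-!
# Packet T3-MC (MP_a41896_nt): coefficients and heights
-/

set_option autoImplicit false

open MvPolynomial

namespace Pool.Agent.Helper8.T3.MC

open Height Height.AdmissibleAbsValues
open Pool.Agent.Helper29.BL Pool.Agent.Helper92.Ru Pool.Agent.Helper42.SG
open Pool.Agent.Helper60.T3 (mc)

section gen

variable {K : Type} [Field K] {σ : Type}

theorem bdd (v : AbsoluteValue K ℝ) (h : MvPolynomial σ K) :
    BddAbove (Set.range fun m : σ →₀ ℕ => v (coeff m h)) := by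
  have hfin : (Set.range fun m : σ →₀ ℕ => v (coeff m h)).Finite := by
    refine Set.Finite.subset ((h.support.finite_toSet.image fun m => v (coeff m h)).union
      (Set.finite_singleton (0 : ℝ))) ?_
    rintro _ ⟨m, rfl⟩
    by_cases hm : m ∈ h.support
    · exact Or.inl ⟨m, hm, rfl⟩
    · right
      show v (coeff m h) = 0
      rw [MvPolynomial.notMem_support_iff.1 hm, map_zero]
  exact hfin.bddAbove

theorem le_mc (v : AbsoluteValue K ℝ) (h : MvPolynomial σ K) (m : σ →₀ ℕ) :
    v (coeff m h) ≤ mc v h := le_ciSup (bdd v h) m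

theorem mc_eq (v : AbsoluteValue K ℝ) (h : MvPolynomial σ K) :
    mc v h = ⨆ e : h.support, v (coeff e.1 h) := by
  refine le_antisymm (ciSup_le fun m => ?_) ?_
  · by_cases hm : m ∈ h.support
    · exact le_ciSup (f := fun e : h.support => v (coeff e.1 h))
        (Set.finite_range fun e : h.support => v (coeff e.1 h)).bddAbove ⟨m, hm⟩
    · rw [MvPolynomial.notMem_support_iff.1 hm, map_zero]
      exact Real.iSup_nonneg fun _ => v.nonneg _
  · exact Real.iSup_le (fun e => le_mc v h e.1)
      (Real.iSup_nonneg fun _ => v.nonneg _)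

theorem cv_ne {h : MvPolynomial σ K} (h0 : h ≠ 0) :
    (fun e : h.support => coeff e.1 h) ≠ 0 := by
  obtain ⟨m, hm⟩ := MvPolynomial.support_nonempty.2 h0
  intro hc
  exact MvPolynomial.mem_support_iff.1 hm (congrFun hc ⟨m, hm⟩)

end gen

variable {K : Type} [Field K] [NumberField K] {σ : Type}

theorem fs_mc {h : MvPolynomial σ K} (h0 : h ≠ 0) :
    FS (K := K) (fun v => Real.log (mc v h)) := by
  have h1 := FS_log_iSup (K := K) (cv_ne h0)
  refine h1.mono fun v _ hv => ?_
  rw [mc_eq]
  exact hv

theorem ps_mc {h : MvPolynomial σ K} (h0 : h ≠ 0) :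
    PS (K := K) (fun v => Real.log (mc v h)) = Real.log (PH h) := by
  have h1 := PS_log_iSup (K := K) (cv_ne h0)
  rw [logHeight_eq_log_mulHeight] at h1
  rw [PH, ← h1]
  refine congrArg PS (funext fun v => ?_)
  rw [mc_eq]

theorem ph_smul {c : K} (hc : c ≠ 0) (h : MvPolynomial σ K) : PH (C c * h) = PH h := by
  have hs : (C c * h).support = h.support := by
    ext m
    rw [MvPolynomial.mem_support_iff, MvPolynomial.mem_support_iff, coeff_C_mul]
    exact mul_ne_zero_iff_left hc
  have key : ∀ s : Finset (σ →₀ ℕ), s = h.support →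
      mulHeight (fun e : s => coeff e.1 (C c * h)) = PH h := by
    rintro s rfl
    have : (fun e : h.support => coeff e.1 (C c * h)) =
        c • (fun e : h.support => coeff e.1 h) := by
      funext e
      rw [coeff_C_mul, Pi.smul_apply, smul_eq_mul]
    rw [this, mulHeight_smul_eq_mulHeight _ hc, PH]
  exact key _ hs

theorem t : Pool.Agent.Helper60.T3.S_MC := by
  intro K _ _ σ
  refine ⟨?_, fun v h m => le_mc v h m, ?_, fun c h hc => ph_smul hc h⟩
  · rintro h ⟨m, hm⟩
    have h0 : h ≠ 0 := by
      rintro rfl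
      rw [coeff_zero] at hm
      exact zero_ne_one hm
    have h1 : ∀ v : AbsoluteValue K ℝ, 1 ≤ mc v h := fun v => by
      have := le_mc v h m
      rwa [hm, map_one] at this
    refine ⟨⟨h1, fs_mc h0⟩, ps_mc h0, fun m' => ?_⟩
    rw [← ps_mc h0, ← PS_posLog]
    refine PS_mono (FS_posLog _) (fs_mc h0) fun v => ?_
    rw [Real.posLog]
    refine max_le (Real.log_nonneg (h1 v)) ?_
    rcases (v.nonneg (coeff m' h)).eq_or_lt with h2 | h2
    · rw [← h2, Real.log_zero]
      exact Real.log_nonneg (h1 v)
    · exact Real.log_le_log h2 (le_mc v h m')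
  · intro R S hR hS hle
    rw [← ps_mc hR]
    refine PS_mono (fs_mc hR) hS.fin fun v => ?_
    have hpos : 0 < mc v R := by
      rw [mc_eq]
      exact iSup_abv_pos v (cv_ne hR)
    refine Real.log_le_log hpos (ciSup_le fun m => hle v m)

end Pool.Agent.Helper8.T3.MC
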